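import Pool.Agent.H68.TF.Lev
import Pool.Agent.H88.NW.Pad

/-!
MP_28b514: `(9^m - 1) / 2` lines of `ℂ^((3^m - 1) / 2)` with `|⟨x, y⟩|² ∈ {0, 3 / 3^m}`: the odd
parts of the quadratic phases over the field with `3^m` elements.
-/

set_option autoImplicit false

namespace Pool.Agent.H68.TF

open Finset Pool.Agent.H88.NW

namespace C3

variable {K : Type} [Field K] [Fintype K] [DecidableEq K] {ψ : AddChar K ℂ}

omit [Fintype K] [DecidableEq K] in
theorem two_ne (h3 : (3 : K) = 0) : (2 : K) ≠ 0 := by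
  intro h
  have h1 : (1 : K) = 0 := by linear_combination h3 - h
  exact one_ne_zero h1

omit [DecidableEq K] in
theorem conj (x : K) : (starRingEnd ℂ) (ψ x) = ψ (-x) := by
  rw [AddChar.map_neg_eq_conj]

theorem orth (hψ : ψ.IsPrimitive) (b : K) :
    ∑ x, ψ (b * x) = if b = 0 then (Fintype.card K : ℂ) else 0 := by
  have h := AddChar.sum_mulShift b hψ
  rw [sum_congr rfl fun x _ => by rw [mul_comm b x], h]
  split_ifs <;> simp

omit [DecidableEq K] in
/-- `ψ` has values third roots of unity -/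
theorem norm_sub (h3 : (3 : K) = 0) (x y : K) : ‖ψ x - ψ y‖ ^ 2 ≤ 3 := by
  set w : ℂ := ψ (x - y) with hw
  have e1 : ψ x = ψ y * w := by
    rw [hw, ← AddChar.map_add_eq_mul]
    congr 1
    ring
  have hn : ‖ψ y‖ = 1 := AddChar.norm_apply ψ y
  have hw1 : ‖w‖ = 1 := AddChar.norm_apply ψ (x - y)
  have e2 : ψ x - ψ y = ψ y * (w - 1) := by rw [e1]; ring
  rw [e2, norm_mul, hn, one_mul]
  have hw3 : w ^ 3 = 1 := by
    rw [hw, ← AddChar.map_nsmul_eq_pow]
    have h4 : (3 : ℕ) • (x - y) = 0 := by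
      rw [nsmul_eq_mul]
      push_cast
      rw [h3, zero_mul]
    rw [h4, AddChar.map_zero_eq_one]
  have h5 : (w - 1) * (w ^ 2 + w + 1) = 0 := by linear_combination hw3
  rcases mul_eq_zero.1 h5 with h6 | h6
  · rw [h6]
    norm_num
  · have h7 : w * (starRingEnd ℂ) w = 1 := by
      rw [Complex.mul_conj, Complex.normSq_eq_norm_sq, hw1]
      norm_num
    have hw0 : w ≠ 0 := by
      intro h
      rw [h] at hw1
      norm_num at hw1
    have h8 : (starRingEnd ℂ) w = w ^ 2 := by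
      apply mul_left_cancel₀ hw0
      rw [h7]
      linear_combination -hw3
    have h9 : ((‖w - 1‖ ^ 2 : ℝ) : ℂ) = 3 := by
      rw [← Complex.normSq_eq_norm_sq, ← Complex.mul_conj, map_sub, map_one, h8]
      linear_combination hw3 - h6
    have h10 : ‖w - 1‖ ^ 2 = 3 := by exact_mod_cast h9
    rw [h10]

/-- quadratic Gauss sums -/
noncomputable def gs (ψ : AddChar K ℂ) (α c : K) : ℂ := ∑ x, ψ (α * x ^ 2 + c * x)

theorem gs_zero (hψ : ψ.IsPrimitive) (c : K) :
    gs ψ 0 c = if c = 0 then (Fintype.card K : ℂ) else 0 := by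
  unfold gs
  simp_rw [zero_mul, zero_add]
  exact orth hψ c

omit [DecidableEq K] in
theorem gs_neg (α c : K) : gs ψ α (-c) = gs ψ α c := by
  unfold gs
  rw [← Equiv.sum_comp (Equiv.neg K)]
  refine sum_congr rfl fun x _ => ?_
  rw [Equiv.neg_apply]
  congr 1
  ring

omit [DecidableEq K] in
/-- completing the square in characteristic three -/
theorem gs_eq (h3 : (3 : K) = 0) (α c : K) (hα : α ≠ 0) :
    gs ψ α c = ψ (-(c ^ 2 / α)) * gs ψ α 0 := by
  unfold gs
  rw [← Equiv.sum_comp (Equiv.addRight (c / α)), mul_sum]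
  refine sum_congr rfl fun x _ => ?_
  rw [Equiv.coe_addRight, ← AddChar.map_add_eq_mul]
  congr 1
  have h4 : α * (c / α) = c := by field_simp
  have h5 : c ^ 2 / α = c * (c / α) := by ring
  have h6 : α * (c / α) ^ 2 = c * (c / α) := by rw [pow_two, ← mul_assoc, h4]
  rw [h5]
  linear_combination (2 * x) * h4 + h6 + (c * x + c * (c / α)) * h3

theorem gs_norm (hψ : ψ.IsPrimitive) (h3 : (3 : K) = 0) (α : K) (hα : α ≠ 0) :
    ‖gs ψ α 0‖ ^ 2 = (Fintype.card K : ℝ) := by
  have h1 : (((‖gs ψ α 0‖ ^ 2 : ℝ)) : ℂ) = Fintype.card K := by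
    rw [Complex.ofReal_pow, ← Complex.mul_conj']
    unfold gs
    rw [map_sum, sum_mul_sum, sum_comm]
    have h4 : ∀ y ∈ (univ : Finset K),
        ∑ x : K, ψ (α * x ^ 2 + 0 * x) * (starRingEnd ℂ) (ψ (α * y ^ 2 + 0 * y)) =
        ∑ h : K, ψ (α * h ^ 2) * ψ ((2 * α * h) * y) := by
      intro y _
      rw [← Equiv.sum_comp (Equiv.addRight y)]
      refine sum_congr rfl fun h _ => ?_
      rw [conj, ← AddChar.map_add_eq_mul, ← AddChar.map_add_eq_mul]
      congr 1
      simp only [Equiv.coe_addRight]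
      ring
    rw [sum_congr rfl h4, sum_comm]
    have h5 : ∀ h ∈ (univ : Finset K), ∑ y : K, ψ (α * h ^ 2) * ψ ((2 * α * h) * y) =
        if h = 0 then (Fintype.card K : ℂ) else 0 := by
      intro h _
      rw [← mul_sum, orth hψ]
      by_cases hh : h = 0
      · subst hh
        simp
      · rw [if_neg (mul_ne_zero (mul_ne_zero (two_ne h3) hα) hh), if_neg hh, mul_zero]
    rw [sum_congr rfl h5, sum_ite_eq' univ (0 : K), if_pos (mem_univ _)]
  exact_mod_cast h1

/-- the odd phase -/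
noncomputable def od (ψ : AddChar K ℂ) (a b x : K) : ℂ := ψ (a * x ^ 2 + b * x) - ψ (a * x ^ 2 - b * x)

omit [DecidableEq K] in
theorem od_sum (a b a' b' : K) : ∑ x, (starRingEnd ℂ) (od ψ a b x) * od ψ a' b' x =
    2 * (gs ψ (a' - a) (b' - b) - gs ψ (a' - a) (b' + b)) := by
  have h1 : ∀ x : K, (starRingEnd ℂ) (od ψ a b x) * od ψ a' b' x =
      ψ ((a' - a) * x ^ 2 + (b' - b) * x) - ψ ((a' - a) * x ^ 2 + -(b' + b) * x) -
      ψ ((a' - a) * x ^ 2 + (b' + b) * x) + ψ ((a' - a) * x ^ 2 + -(b' - b) * x) := by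
    intro x
    unfold od
    rw [map_sub, conj, conj, sub_mul, mul_sub, mul_sub, ← AddChar.map_add_eq_mul,
      ← AddChar.map_add_eq_mul, ← AddChar.map_add_eq_mul, ← AddChar.map_add_eq_mul]
    have e1 : -(a * x ^ 2 + b * x) + (a' * x ^ 2 + b' * x) =
        (a' - a) * x ^ 2 + (b' - b) * x := by ring
    have e2 : -(a * x ^ 2 + b * x) + (a' * x ^ 2 - b' * x) =
        (a' - a) * x ^ 2 + -(b' + b) * x := by ring
    have e3 : -(a * x ^ 2 - b * x) + (a' * x ^ 2 + b' * x) =
        (a' - a) * x ^ 2 + (b' + b) * x := by ring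
    have e4 : -(a * x ^ 2 - b * x) + (a' * x ^ 2 - b' * x) =
        (a' - a) * x ^ 2 + -(b' - b) * x := by ring
    rw [e1, e2, e3, e4]
    ring
  rw [sum_congr rfl fun x _ => h1 x, sum_add_distrib, sum_sub_distrib, sum_sub_distrib]
  change gs ψ (a' - a) (b' - b) - gs ψ (a' - a) (-(b' + b)) - gs ψ (a' - a) (b' + b) +
    gs ψ (a' - a) (-(b' - b)) = _
  rw [gs_neg, gs_neg]
  ring

omit [DecidableEq K] in
/-- half sums -/
theorem half_sum (h3 : (3 : K) = 0) (e : K ≃ Fin (Fintype.card K)) (f : K → ℂ)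
    (hf : ∀ x, f (-x) = f x) (h0 : f 0 = 0) :
    ∑ x, f x = 2 * ∑ x : {x : K // e x < e (-x)}, f x := by
  have h1 : ∀ x : K, f x = (if e x < e (-x) then f x else 0) +
      (if e (-x) < e x then f x else 0) := by
    intro x
    rcases lt_trichotomy (e x) (e (-x)) with h | h | h
    · rw [if_pos h, if_neg h.not_gt, add_zero]
    · have h4 : x = -x := e.injective h
      have h5 : (2 : K) * x = 0 := by linear_combination h4
      have h6 : x = 0 := by
        rcases mul_eq_zero.1 h5 with h7 | h7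
        · exact absurd h7 (two_ne h3)
        · exact h7
      rw [h6, h0]
      simp
    · rw [if_neg h.not_gt, if_pos h, zero_add]
  have h2 : ∑ x : K, (if e (-x) < e x then f x else 0) =
      ∑ x : K, (if e x < e (-x) then f x else 0) := by
    rw [← Equiv.sum_comp (Equiv.neg K)]
    refine sum_congr rfl fun x _ => ?_
    rw [Equiv.neg_apply, neg_neg, hf]
  rw [sum_congr rfl fun x _ => h1 x, sum_add_distrib, h2, ← two_mul,
    ← sum_subtype (univ.filter fun x : K => e x < e (-x)) (by simp) f, sum_filter]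

theorem card_half (h3 : (3 : K) = 0) (e : K ≃ Fin (Fintype.card K)) :
    2 * Fintype.card {x : K // e x < e (-x)} + 1 = Fintype.card K := by
  have h1 := half_sum h3 e (fun x => if x = 0 then 0 else 1) (by simp) (by simp)
  have h2 : ∑ x : K, (if x = 0 then (0 : ℂ) else 1) = Fintype.card K - 1 := by
    have h4 : ∀ x : K, (if x = 0 then (0 : ℂ) else 1) = 1 - if x = 0 then 1 else 0 := by
      intro x
      split_ifs <;> norm_num
    rw [sum_congr rfl fun x _ => h4 x, sum_sub_distrib]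
    simp
  have h5 : ∑ x : {x : K // e x < e (-x)}, (if (x : K) = 0 then (0 : ℂ) else 1) =
      Fintype.card {x : K // e x < e (-x)} := by
    have h6 : ∀ x : {x : K // e x < e (-x)}, (if (x : K) = 0 then (0 : ℂ) else 1) = 1 := by
      rintro ⟨x, hx⟩
      rw [if_neg]
      intro h
      simp only at h
      subst h
      rw [neg_zero] at hx
      exact lt_irrefl _ hx
    rw [sum_congr rfl fun x _ => h6 x]
    simp
  rw [h2, h5] at h1
  have h7 : ((2 * Fintype.card {x : K // e x < e (-x)} + 1 : ℕ) : ℂ) = (Fintype.card K : ℕ) := by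
    push_cast
    linear_combination -h1
  exact_mod_cast h7

theorem sys (hψ : ψ.IsPrimitive) (h3 : (3 : K) = 0) (e : K ≃ Fin (Fintype.card K)) :
    HasSys ℂ (Fintype.card {x : K // e x < e (-x)})
      (Fintype.card {x : K // e x < e (-x)} * (Fintype.card K + 1))
      (Real.sqrt (3 / Fintype.card K)) := by
  have hq : (0 : ℝ) < Fintype.card K := by exact_mod_cast Fintype.card_pos
  set q : ℝ := (Fintype.card K : ℝ) with hqd
  have hqC : (Fintype.card K : ℂ) = (q : ℂ) := by rw [hqd]; norm_cast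
  let R := {x : K // e x < e (-x)}
  have hR0 : ∀ x : R, (x : K) ≠ 0 := by
    rintro ⟨x, hx⟩ h
    simp only at h
    subst h
    rw [neg_zero] at hx
    exact lt_irrefl _ hx
  have hRn : ∀ x y : R, (x : K) + y ≠ 0 := by
    rintro ⟨x, hx⟩ ⟨y, hy⟩ h
    simp only at h
    have h4 : y = -x := by linear_combination h
    subst h4
    rw [neg_neg] at hy
    exact lt_asymm hx hy
  let v : K → R → EuclideanSpace ℂ R := fun a b =>
    WithLp.toLp 2 fun x => ((Real.sqrt q)⁻¹ : ℝ) * od ψ a b.1 x.1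
  let g : R ⊕ (K × R) → EuclideanSpace ℂ R :=
    Sum.elim (fun x => EuclideanSpace.single x 1) fun p => v p.1 p.2
  have hs : Real.sqrt q * Real.sqrt q = q := Real.mul_self_sqrt hq.le
  have hs0 : 0 < Real.sqrt q := Real.sqrt_pos.2 hq
  have hin : ∀ a b a' b', inner ℂ (v a b) (v a' b') = ((q⁻¹ : ℝ) : ℂ) *
      (gs ψ (a' - a) (b' - b) - gs ψ (a' - a) (b' + b)) := by
    intro a b a' b'
    rw [PiLp.inner_apply]
    have h5 := half_sum h3 e (fun x => (starRingEnd ℂ) (od ψ a b.1 x) * od ψ a' b'.1 x)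
      (by
        intro x
        have h6 : ∀ c d, od ψ c d (-x) = -od ψ c d x := by
          intro c d
          unfold od
          have e1 : c * (-x) ^ 2 + d * -x = c * x ^ 2 - d * x := by ring
          have e2 : c * (-x) ^ 2 - d * -x = c * x ^ 2 + d * x := by ring
          rw [e1, e2]
          ring
        simp only [h6, map_neg]
        ring)
      (by simp [od])
    rw [od_sum] at h5
    have h7 : gs ψ (a' - a) (b' - b) - gs ψ (a' - a) (b' + b) =
        ∑ x : R, (starRingEnd ℂ) (od ψ a b.1 x) * od ψ a' b'.1 x :=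
      mul_left_cancel₀ (two_ne_zero' ℂ) h5
    rw [h7, mul_sum]
    refine sum_congr rfl fun x _ => ?_
    change inner ℂ (((Real.sqrt q)⁻¹ : ℝ) * od ψ a b.1 x.1)
      (((Real.sqrt q)⁻¹ : ℝ) * od ψ a' b'.1 x.1) = _
    rw [RCLike.inner_apply, map_mul, Complex.conj_ofReal]
    have h8 : ((q⁻¹ : ℝ) : ℂ) = (((Real.sqrt q)⁻¹ : ℝ) : ℂ) * (((Real.sqrt q)⁻¹ : ℝ) : ℂ) := by
      rw [← Complex.ofReal_mul, ← mul_inv, hs]
    rw [h8]
    ring
  have hv : ∀ a b, ‖v a b‖ = 1 := by
    intro a b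
    have h1 := inner_self_eq_norm_sq_to_K (𝕜 := ℂ) (v a b)
    rw [hin, sub_self, sub_self, gs_zero hψ, gs_zero hψ, if_pos rfl, if_neg (hRn b b), sub_zero,
      hqC, ← Complex.ofReal_mul, inv_mul_cancel₀ hq.ne'] at h1
    have h4 : (1 : ℝ) = ‖v a b‖ ^ 2 := by
      have h5 : ((1 : ℝ) : ℂ) = ((‖v a b‖ ^ 2 : ℝ) : ℂ) := by
        rw [Complex.ofReal_pow]
        exact h1
      exact Complex.ofReal_injective h5
    nlinarith [norm_nonneg (v a b)]
  have hsq : ∀ t : ℝ, 0 ≤ t → t ^ 2 ≤ 3 / q → t ≤ Real.sqrt (3 / q) := fun t ht h =>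
    Real.le_sqrt_of_sq_le h
  have hmix : ∀ x a b, ‖inner ℂ (EuclideanSpace.single x (1 : ℂ)) (v a b)‖ ≤
      Real.sqrt (3 / q) := by
    intro x a b
    rw [EuclideanSpace.inner_single_left]
    change ‖(starRingEnd ℂ) 1 * (((Real.sqrt q)⁻¹ : ℝ) * od ψ a b.1 x.1)‖ ≤ _
    refine hsq _ (norm_nonneg _) ?_
    rw [map_one, one_mul, norm_mul, Complex.norm_real, Real.norm_eq_abs,
      abs_of_pos (inv_pos.2 hs0), mul_pow, inv_pow, pow_two, hs, inv_mul_eq_div]
    exact div_le_div_of_nonneg_right (norm_sub h3 _ _) hq.le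
  refine HasSys.of_family g (fun i => ?_) (fun i j hij => ?_) le_rfl ?_
  · rcases i with x | ⟨a, b⟩
    · simp [g]
    · exact hv a b
  · rcases i with x | ⟨a, b⟩ <;> rcases j with x' | ⟨a', b'⟩
    · have hx : x ≠ x' := fun h => hij (by rw [h])
      have h0 : inner ℂ (EuclideanSpace.single x (1 : ℂ)) (EuclideanSpace.single x' (1 : ℂ)) =
          0 := by
        rw [EuclideanSpace.inner_single_left]
        simp [hx]
      change ‖inner ℂ (EuclideanSpace.single x (1 : ℂ)) (EuclideanSpace.single x' (1 : ℂ))‖ ≤ _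
      rw [h0, norm_zero]
      positivity
    · exact hmix x a' b'
    · change ‖inner ℂ (v a b) (EuclideanSpace.single x' (1 : ℂ))‖ ≤ _
      rw [norm_inner_symm]
      exact hmix x' a b
    · change ‖inner ℂ (v a b) (v a' b')‖ ≤ _
      rw [hin]
      by_cases ha : a' - a = 0
      · have hbb : (b' : K) - b ≠ 0 := by
          intro h
          apply hij
          have e1 : a = a' := (sub_eq_zero.1 ha).symm
          have e2 : b = b' := Subtype.ext (sub_eq_zero.1 h).symm
          rw [e1, e2]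
        rw [ha, gs_zero hψ, gs_zero hψ, if_neg hbb, if_neg (hRn b' b), sub_zero, mul_zero,
          norm_zero]
        positivity
      · refine hsq _ (norm_nonneg _) ?_
        rw [gs_eq h3 _ _ ha, gs_eq h3 _ (b' + b : K) ha, ← sub_mul, norm_mul, norm_mul,
          Complex.norm_real, Real.norm_eq_abs, abs_of_pos (inv_pos.2 hq), mul_pow, mul_pow,
          gs_norm hψ h3 _ ha]
        have h9 := norm_sub (ψ := ψ) h3 (-(((b' : K) - b) ^ 2 / (a' - a)))
          (-(((b' : K) + b) ^ 2 / (a' - a)))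
        calc q⁻¹ ^ 2 * (‖ψ (-(((b' : K) - b) ^ 2 / (a' - a))) -
              ψ (-(((b' : K) + b) ^ 2 / (a' - a)))‖ ^ 2 * q) ≤ q⁻¹ ^ 2 * (3 * q) := by gcongr
          _ = 3 / q := by field_simp
  · rw [Fintype.card_sum, Fintype.card_prod]
    apply le_of_eq
    ring

end C3

/-- **the complex family** -/
theorem complex_family (m : ℕ) (hm : 2 ≤ m) (n : ℕ) (hn : 2 * n + 1 = 3 ^ m) :
    NN ℂ n (Real.sqrt (3 / (2 * n + 1))) = 2 * n * (n + 1) := by
  classical
  have hm0 : m ≠ 0 := by omega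
  have : Fact (Nat.Prime 3) := ⟨Nat.prime_three⟩
  let K := GaloisField 3 m
  let _ : Fintype K := Fintype.ofFinite K
  have hcard : Fintype.card K = 3 ^ m := by
    rw [← Nat.card_eq_fintype_card]
    exact GaloisField.card 3 m hm0
  have h3 : (3 : K) = 0 := by
    have h := CharP.cast_eq_zero K 3
    exact_mod_cast h
  let e : K ≃ Fin (Fintype.card K) := Fintype.equivFin K
  have hR := (C3.card_half h3 e).trans hcard
  have hRn : Fintype.card {x : K // e x < e (-x)} = n := by omega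
  have hs := C3.sys (AddChar.FiniteField.primitiveChar_to_Complex_isPrimitive K) h3 e
  rw [hRn, hcard, ← hn] at hs
  have h9 : 9 ≤ 2 * n + 1 := by
    rw [hn]
    calc 9 = 3 ^ 2 := by norm_num
      _ ≤ 3 ^ m := Nat.pow_le_pow_right (by norm_num) hm
  have hn4 : (4 : ℝ) ≤ n := by exact_mod_cast (by omega : 4 ≤ n)
  have e2 : n * (2 * n + 1 + 1) = 2 * n * (n + 1) := by ring
  rw [e2] at hs
  push_cast at hs
  have hμ : Real.sqrt (3 / (2 * (n : ℝ) + 1)) ^ 2 = 3 / (2 * n + 1) :=
    Real.sq_sqrt (by positivity)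
  have hB : ∀ N, HasSys ℂ n N (Real.sqrt (3 / (2 * n + 1))) →
      (N : ℝ) ≤ (2 * n * (n + 1) : ℕ) := by
    intro N hN
    have h1 := lev_complex hN (by omega) (by rw [hμ, div_le_one (by positivity)]; linarith)
      (by rw [hμ, div_mul_eq_mul_div, div_le_iff₀ (by positivity)]; nlinarith)
    rw [hμ] at h1
    have h2 : (2 : ℝ) - (n + 1) * (3 / (2 * n + 1)) = (n - 1) / (2 * n + 1) := by
      field_simp
      ring
    have h4 : n * (n + 1) * ((1 : ℝ) - 3 / (2 * n + 1)) =
        (2 * n * (n + 1)) * ((n - 1) / (2 * n + 1)) := by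
      field_simp
      ring
    rw [h2, h4] at h1
    have h5 : (0 : ℝ) < (n - 1) / (2 * n + 1) := div_pos (by linarith) (by linarith)
    push_cast
    exact le_of_mul_le_mul_right h1 h5
  apply le_antisymm
  · have h1 := NN_le hB
    exact_mod_cast h1
  · exact le_NN hs hB

end Pool.Agent.H68.TF
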