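import Pool.Agent.H68.TF.Sum
import Pool.Agent.H68.TF.Lev
import Pool.Agent.H88.NW.Pad

/-!
MP_28b514: `(2^m - 1)(2^m + 1)` lines of `ℝ^(2^m - 1)`, `m` odd, with `|⟨x, y⟩|² ∈ {0, 2 / 2^m}`.
-/

set_option autoImplicit false

namespace Pool.Agent.H68.TF

open Finset Pool.Agent.H88.NW

namespace Ch

variable {K : Type} [Field K] (P : Ch K) [Fintype K] [DecidableEq K]

/-- the inner product of two rows with phases -/
theorem rows (a a' Y Y' : K) (hY' : Y' ≠ 0) (h : a ≠ a' ∨ Y ≠ Y') :
    |∑ X, (P.ψ (a * X ^ 3) * P.F (X * Y)) * (P.ψ (a' * X ^ 3) * P.F (X * Y'))| ≤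
      Fintype.card K * Real.sqrt (2 * Fintype.card K) := by
  have h1 : ∀ X : K, (P.ψ (a * X ^ 3) * P.F (X * Y)) * (P.ψ (a' * X ^ 3) * P.F (X * Y')) =
      P.ψ ((a + a') * X ^ 3) * (P.F (X * Y) * P.F (X * Y')) := by
    intro X
    rw [add_mul, P.add]
    ring
  rw [sum_congr rfl fun X _ => h1 X]
  by_cases ha : a + a' = 0
  · have ha' : a = a' := by linear_combination ha - a' * P.two
    have hYY : Y ≠ Y' := by
      rcases h with h | h
      · exact absurd ha' h
      · exact h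
    rw [ha]
    simp_rw [zero_mul, P.zero, one_mul]
    rw [P.F_orth Y Y' hY', if_neg hYY, abs_zero]
    positivity
  · obtain ⟨β, hβ⟩ : ∃ β : K, β ^ 3 = a + a' := by
      have hb : Function.Bijective fun x : K => x ^ 3 :=
        Finite.injective_iff_bijective.1 fun x y h => P.cube x y h
      exact hb.2 (a + a')
    have hβ0 : β ≠ 0 := by
      rintro rfl
      apply ha
      rw [← hβ]
      simp
    have h2 : ∑ X, P.ψ ((a + a') * X ^ 3) * (P.F (X * Y) * P.F (X * Y')) =
        ∑ X, P.ψ (X ^ 3) * (P.F (X * (Y / β)) * P.F (X * (Y' / β))) := by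
      rw [← Equiv.sum_comp (Equiv.mulLeft₀ β hβ0) fun X => P.ψ (X ^ 3) *
        (P.F (X * (Y / β)) * P.F (X * (Y' / β)))]
      refine sum_congr rfl fun X _ => ?_
      rw [Equiv.mulLeft₀_apply, ← hβ]
      congr 2
      · ring
      · congr 1
        field_simp
      · congr 1
        field_simp
    rw [h2, P.main_id, abs_neg, abs_mul, abs_mul, P.abs, one_mul, Nat.abs_cast]
    exact mul_le_mul_of_nonneg_left (P.F_abs _) (Nat.cast_nonneg _)

/-- sums over the nonzero elements -/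
theorem sum_sub (f : K → ℝ) (h : f 0 = 0) : ∑ x : {x : K // x ≠ 0}, f x = ∑ x, f x := by
  classical
  rw [← sum_subtype (univ.filter fun x : K => x ≠ 0) (by simp) f, sum_filter]
  refine sum_congr rfl fun x _ => ?_
  by_cases hx : x = 0
  · simp [hx, h]
  · simp [hx]

include P in
theorem sys : HasSys ℝ (Fintype.card K - 1) ((Fintype.card K - 1) * (Fintype.card K + 1))
    (Real.sqrt (2 / Fintype.card K)) := by
  have hq : (0 : ℝ) < Fintype.card K := by exact_mod_cast Fintype.card_pos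
  set q : ℝ := (Fintype.card K : ℝ) with hqd
  have hsq : q * Real.sqrt (2 * q) = q ^ 2 * Real.sqrt (2 / q) := by
    have h1 : (2 : ℝ) * q = q ^ 2 * (2 / q) := by field_simp
    rw [h1, Real.sqrt_mul (by positivity), Real.sqrt_sq hq.le]
    ring
  have hsq1 : Real.sqrt (2 * q) / q = Real.sqrt (2 / q) := by
    rw [div_eq_iff hq.ne']
    have h2 : q * Real.sqrt (2 * q) = q * (Real.sqrt (2 / q) * q) := by rw [hsq]; ring
    exact mul_left_cancel₀ hq.ne' h2
  let v : K → {x : K // x ≠ 0} → EuclideanSpace ℝ {x : K // x ≠ 0} := fun a Y =>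
    WithLp.toLp 2 fun X => P.ψ (a * X.1 ^ 3) * P.F (X.1 * Y.1) / q
  let g : {x : K // x ≠ 0} ⊕ (K × {x : K // x ≠ 0}) → EuclideanSpace ℝ {x : K // x ≠ 0} :=
    Sum.elim (fun x => EuclideanSpace.single x 1) fun p => v p.1 p.2
  have hin : ∀ a Y a' Y', inner ℝ (v a Y) (v a' Y') = (∑ X : K,
      (P.ψ (a * X ^ 3) * P.F (X * Y)) * (P.ψ (a' * X ^ 3) * P.F (X * Y'))) / q ^ 2 := by
    intro a Y a' Y'
    rw [PiLp.inner_apply, ← sum_sub (fun X : K => (P.ψ (a * X ^ 3) * P.F (X * Y)) *
      (P.ψ (a' * X ^ 3) * P.F (X * Y'))) (by simp [P.F_zero]), sum_div]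
    refine sum_congr rfl fun X _ => ?_
    change inner ℝ (P.ψ (a * X.1 ^ 3) * P.F (X.1 * Y.1) / q)
      (P.ψ (a' * X.1 ^ 3) * P.F (X.1 * Y'.1) / q) = _
    rw [RCLike.inner_apply, conj_trivial]
    field_simp
  have hv : ∀ a Y, ‖v a Y‖ = 1 := by
    intro a Y
    have h1 := real_inner_self_eq_norm_sq (v a Y)
    rw [hin] at h1
    have h2 : ∑ X : K, (P.ψ (a * X ^ 3) * P.F (X * Y)) * (P.ψ (a * X ^ 3) * P.F (X * Y)) =
        q ^ 2 := by
      rw [← if_pos (rfl : (Y : K) = Y) (t := q ^ 2) (e := 0), ← P.F_orth Y.1 Y.1 Y.2]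
      refine sum_congr rfl fun X _ => ?_
      calc _ = (P.ψ (a * X ^ 3) * P.ψ (a * X ^ 3)) * (P.F (X * Y) * P.F (X * Y)) := by ring
        _ = _ := by rw [P.mul_self, one_mul]
    rw [h2, div_self (by positivity)] at h1
    nlinarith [norm_nonneg (v a Y)]
  have hmix : ∀ x a Y, |inner ℝ (EuclideanSpace.single x (1 : ℝ)) (v a Y)| ≤
      Real.sqrt (2 / q) := by
    intro x a Y
    rw [EuclideanSpace.inner_single_left]
    change |(starRingEnd ℝ) 1 * (P.ψ (a * x.1 ^ 3) * P.F (x.1 * Y.1) / q)| ≤ _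
    rw [map_one, one_mul, abs_div, abs_mul, P.abs, one_mul, abs_of_pos hq, ← hsq1]
    exact div_le_div_of_nonneg_right (P.F_abs _) hq.le
  refine HasSys.of_family g (fun i => ?_) (fun i j hij => ?_) ?_ ?_
  · rcases i with x | ⟨a, Y⟩
    · simp [g]
    · exact hv a Y
  · rw [Real.norm_eq_abs]
    rcases i with x | ⟨a, Y⟩ <;> rcases j with x' | ⟨a', Y'⟩
    · have hx : x ≠ x' := fun h => hij (by rw [h])
      have h0 : inner ℝ (EuclideanSpace.single x (1 : ℝ)) (EuclideanSpace.single x' (1 : ℝ)) =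
          0 := by
        rw [EuclideanSpace.inner_single_left]
        simp [hx]
      change |inner ℝ (EuclideanSpace.single x (1 : ℝ)) (EuclideanSpace.single x' (1 : ℝ))| ≤ _
      rw [h0, abs_zero]
      positivity
    · exact hmix x a' Y'
    · change |inner ℝ (v a Y) (EuclideanSpace.single x' (1 : ℝ))| ≤ _
      rw [real_inner_comm]
      exact hmix x' a Y
    · change |inner ℝ (v a Y) (v a' Y')| ≤ _
      have hne : a ≠ a' ∨ (Y : K) ≠ Y' := by
        by_contra hc
        push Not at hc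
        apply hij
        rw [hc.1, Subtype.ext hc.2]
      rw [hin, abs_div, abs_of_pos (by positivity : (0 : ℝ) < q ^ 2), div_le_iff₀ (by positivity),
        mul_comm (Real.sqrt (2 / q)), ← hsq]
      exact P.rows a a' Y Y' Y'.2 hne
  · rw [Fintype.card_subtype_compl]
    simp
  · rw [Fintype.card_sum, Fintype.card_prod, Fintype.card_subtype_compl]
    simp only [Fintype.card_unique]
    apply le_of_eq
    ring

end Ch

private theorem chi_add : ∀ a b : ZMod 2, (if a + b = 0 then (1 : ℝ) else -1) =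
    (if a = 0 then 1 else -1) * (if b = 0 then 1 else -1) := by
  intro a b
  have ha : a = 0 ∨ a = 1 := by revert a; decide
  have hb : b = 0 ∨ b = 1 := by revert b; decide
  have h1 : (1 : ZMod 2) ≠ 0 := by decide
  have h2 : (1 : ZMod 2) + 1 = 0 := by decide
  rcases ha with rfl | rfl <;> rcases hb with rfl | rfl <;> simp [h1, h2]

/-- the fields with `2^m` elements, `m` odd -/
theorem exists_ch (m : ℕ) (hm : Odd m) : ∃ (K : Type) (_ : Field K) (_ : Fintype K),
    Fintype.card K = 2 ^ m ∧ Nonempty (Ch K) := by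
  classical
  have hm0 : m ≠ 0 := by
    rintro rfl
    simp at hm
  have : Fact (Nat.Prime 2) := ⟨Nat.prime_two⟩
  let K := GaloisField 2 m
  let _ : Fintype K := Fintype.ofFinite K
  have hcard : Fintype.card K = 2 ^ m := by
    rw [← Nat.card_eq_fintype_card]
    exact GaloisField.card 2 m hm0
  refine ⟨K, inferInstance, inferInstance, hcard, ⟨⟨fun x => if Algebra.trace (ZMod 2) K x = 0
    then 1 else -1, ?_, ?_, ?_, ?_, ?_, ?_⟩⟩⟩
  · intro x y
    rw [map_add]
    exact chi_add _ _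
  · intro x
    have h1 := Algebra.trace_eq_of_algEquiv
      (FiniteField.frobeniusAlgEquivOfAlgebraic (ZMod 2) K) x
    have h2 : FiniteField.frobeniusAlgEquivOfAlgebraic (ZMod 2) K x = x ^ 2 := by
      rw [FiniteField.coe_frobeniusAlgEquivOfAlgebraic, ZMod.card]
    rw [h2] at h1
    simp only [h1]
  · have h1 : Algebra.trace (ZMod 2) K 1 = 1 := by
      have h2 := Algebra.trace_algebraMap (R := ZMod 2) (S := K) (1 : ZMod 2)
      rw [map_one] at h2
      rw [h2, GaloisField.finrank 2 hm0, nsmul_eq_mul, mul_one]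
      obtain ⟨k, rfl⟩ := hm
      push_cast
      have h3 : (2 : ZMod 2) = 0 := CharTwo.two_eq_zero
      rw [h3]
      ring
    rw [h1, if_neg one_ne_zero]
  · intro x
    by_cases h : Algebra.trace (ZMod 2) K x = 0
    · exact Or.inl (if_pos h)
    · exact Or.inr (if_neg h)
  · exact CharTwo.two_eq_zero
  · intro x y h
    by_cases hy : y = 0
    · subst hy
      have h1 : x ^ 3 = 0 := by rw [h]; simp
      exact (pow_eq_zero_iff (by norm_num)).1 h1
    · have h1 : (x / y) ^ 3 = 1 := by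
        rw [div_pow, h, div_self (pow_ne_zero 3 hy)]
      have hx : x / y ≠ 0 := by
        intro h2
        rw [h2] at h1
        norm_num at h1
      have h2 := FiniteField.pow_card_sub_one_eq_one (x / y) hx
      rw [hcard] at h2
      obtain ⟨k, hk⟩ : ∃ k, 2 ^ m - 1 = 3 * k + 1 := by
        obtain ⟨j, rfl⟩ := hm
        refine ⟨(2 ^ (2 * j + 1) - 2) / 3, ?_⟩
        have h3 : 2 ^ (2 * j + 1) % 3 = 2 := by
          rw [pow_succ, pow_mul, Nat.mul_mod, Nat.pow_mod]
          norm_num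
        have h4 : 2 ≤ 2 ^ (2 * j + 1) := by
          calc 2 = 2 ^ 1 := by norm_num
            _ ≤ 2 ^ (2 * j + 1) := Nat.pow_le_pow_right (by norm_num) (by omega)
        generalize 2 ^ (2 * j + 1) = T at h3 h4
        omega
      rw [hk, pow_succ, pow_mul, h1, one_pow, one_mul] at h2
      rwa [div_eq_one_iff_eq hy] at h2

/-- **the real family** -/
theorem real_family (m : ℕ) (hm : Odd m) (hm3 : 3 ≤ m) (n : ℕ) (hn : n + 1 = 2 ^ m) :
    NN ℝ n (Real.sqrt (2 / (n + 1))) = n * (n + 2) := by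
  classical
  obtain ⟨K, _, _, hcard, ⟨P⟩⟩ := exists_ch m hm
  have h8 : 8 ≤ n + 1 := by
    rw [hn]
    calc 8 = 2 ^ 3 := by norm_num
      _ ≤ 2 ^ m := Nat.pow_le_pow_right (by norm_num) hm3
  have hn7 : (7 : ℝ) ≤ n := by exact_mod_cast (by omega : 7 ≤ n)
  have hs := P.sys
  rw [hcard, ← hn] at hs
  have e1 : n + 1 - 1 = n := by omega
  have e2 : n * (n + 1 + 1) = n * (n + 2) := by ring
  rw [e1, e2] at hs
  push_cast at hs
  have hμ : Real.sqrt (2 / ((n : ℝ) + 1)) ^ 2 = 2 / (n + 1) := Real.sq_sqrt (by positivity)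
  have hB : ∀ N, HasSys ℝ n N (Real.sqrt (2 / (n + 1))) → (N : ℝ) ≤ (n * (n + 2) : ℕ) := by
    intro N hN
    have h1 := lev_real hN (by omega) (by rw [hμ, div_le_one (by positivity)]; linarith)
      (by rw [hμ, div_mul_eq_mul_div, div_le_iff₀ (by positivity)]; nlinarith)
    rw [hμ] at h1
    have h2 : (3 : ℝ) - (n + 2) * (2 / (n + 1)) = (n - 1) / (n + 1) := by
      field_simp
      ring
    have h3 : (1 : ℝ) - 2 / (n + 1) = (n - 1) / (n + 1) := by
      field_simp
      ring
    rw [h2, h3] at h1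
    have h4 : (0 : ℝ) < (n - 1) / (n + 1) := div_pos (by linarith) (by linarith)
    push_cast
    exact le_of_mul_le_mul_right h1 h4
  apply le_antisymm
  · have h1 := NN_le hB
    exact_mod_cast h1
  · exact le_NN hs hB

end Pool.Agent.H68.TF
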