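import Mathlib

/-!
MP_28b514: exponential sums of `x³` over the finite fields with `2^m` elements, `m` odd.
The identity `main_id` is the relation `(W D)³ = -1` in a cuspidal representation of `SL(2, 2^m)`.
-/

set_option autoImplicit false

namespace Pool.Agent.H68.TF

open Finset

/-- a finite field of characteristic two in which cubes determine their roots, with the quadratic
character `x ↦ (-1)^Tr x` and `Tr 1 = 1` -/
structure Ch (K : Type) [Field K] where
  /-- the character -/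
  ψ : K → ℝ
  add : ∀ x y, ψ (x + y) = ψ x * ψ y
  sq : ∀ x, ψ (x ^ 2) = ψ x
  one : ψ 1 = -1
  pm : ∀ x, ψ x = 1 ∨ ψ x = -1
  two : (2 : K) = 0
  cube : ∀ x y : K, x ^ 3 = y ^ 3 → x = y

namespace Ch

variable {K : Type} [Field K] (P : Ch K)

theorem zero : P.ψ 0 = 1 := by
  have h := P.add 0 0
  rw [add_zero] at h
  rcases P.pm 0 with h1 | h1
  · exact h1
  · rw [h1] at h; norm_num at h

theorem mul_self (x : K) : P.ψ x * P.ψ x = 1 := by
  rcases P.pm x with h | h <;> rw [h] <;> norm_num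

theorem abs (x : K) : |P.ψ x| = 1 := by
  rcases P.pm x with h | h <;> rw [h] <;> norm_num

include P in
theorem sq_inj (x y : K) (h : x ^ 2 = y ^ 2) : x = y := by
  have h1 : (x - y) ^ 2 = 0 := by linear_combination h + (y ^ 2 - x * y) * P.two
  exact sub_eq_zero.1 (pow_eq_zero_iff (two_ne_zero) |>.1 h1)

variable [Fintype K] [DecidableEq K]

omit [DecidableEq K] in
include P in
/-- sums over cubes -/
theorem sum_cube {M : Type} [AddCommMonoid M] (f : K → M) : ∑ x, f (x ^ 3) = ∑ x, f x := by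
  have hb : Function.Bijective fun x : K => x ^ 3 :=
    Finite.injective_iff_bijective.1 fun x y h => P.cube x y h
  exact hb.sum_comp f

omit [DecidableEq K] in
include P in
/-- sums over squares -/
theorem sum_sq {M : Type} [AddCommMonoid M] (f : K → M) : ∑ x, f (x ^ 2) = ∑ x, f x := by
  have hb : Function.Bijective fun x : K => x ^ 2 :=
    Finite.injective_iff_bijective.1 fun x y h => P.sq_inj x y h
  exact hb.sum_comp f

theorem orth (a : K) : ∑ x, P.ψ (a * x) = if a = 0 then (Fintype.card K : ℝ) else 0 := by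
  split_ifs with h
  · subst h
    simp [P.zero]
  · have h1 : ∑ x, P.ψ (a * x) = -∑ x, P.ψ (a * x) := by
      conv_lhs => rw [← Equiv.sum_comp (Equiv.addRight a⁻¹)]
      rw [← sum_neg_distrib]
      refine sum_congr rfl fun x _ => ?_
      rw [Equiv.coe_addRight, mul_add, mul_inv_cancel₀ h, P.add, P.one]
      ring
    linarith

/-- the exponential sum -/
noncomputable def F (X : K) : ℝ := ∑ u, P.ψ (u ^ 3 + X * u)

theorem F_zero : P.F 0 = 0 := by
  unfold F
  have h : ∀ u : K, P.ψ (u ^ 3 + 0 * u) = P.ψ (u ^ 3) := fun u => by rw [zero_mul, add_zero]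
  rw [sum_congr rfl fun u _ => h u, P.sum_cube fun x => P.ψ x]
  have h1 := P.orth 1
  simpa using h1

/-- sums of `ψ (a x² + b x)` -/
theorem gauss (z b : K) : ∑ p, P.ψ (z ^ 2 * p ^ 2 + b * p) =
    if z + b = 0 then (Fintype.card K : ℝ) else 0 := by
  rw [← P.orth]
  refine sum_congr rfl fun p _ => ?_
  rw [P.add, ← mul_pow, P.sq, ← P.add]
  congr 1
  ring

theorem F_sq (X : K) : P.F X ^ 2 = Fintype.card K * (1 - P.ψ X) := by
  have h1 : P.F X ^ 2 = ∑ u, ∑ r, P.ψ (u ^ 3 + X * u) * P.ψ ((u + r ^ 2) ^ 3 + X * (u + r ^ 2)) := by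
    unfold F
    rw [_root_.sq, sum_mul_sum]
    refine sum_congr rfl fun u _ => ?_
    rw [← Equiv.sum_comp (Equiv.addLeft u)]
    simp only [Equiv.coe_addLeft]
    rw [← P.sum_sq fun r => P.ψ (u ^ 3 + X * u) * P.ψ ((u + r) ^ 3 + X * (u + r))]
  have h2 : ∀ u r : K, P.ψ (u ^ 3 + X * u) * P.ψ ((u + r ^ 2) ^ 3 + X * (u + r ^ 2)) =
      P.ψ (r ^ 6 + X * r ^ 2) * P.ψ ((r + r ^ 4) * u) := by
    intro u r
    rw [← P.add]
    have e1 : u ^ 3 + X * u + ((u + r ^ 2) ^ 3 + X * (u + r ^ 2)) =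
        (r ^ 6 + X * r ^ 2) + ((u * r) ^ 2 + u * r ^ 4) := by
      linear_combination (u ^ 3 + X * u + u ^ 2 * r ^ 2 + u * r ^ 4) * P.two
    rw [e1, P.add, P.add ((u * r) ^ 2), P.sq, ← P.add (u * r)]
    congr 2
    ring
  rw [h1, sum_comm]
  have h3 : ∀ r : K, ∑ u, P.ψ (u ^ 3 + X * u) * P.ψ ((u + r ^ 2) ^ 3 + X * (u + r ^ 2)) =
      if r = 0 then (Fintype.card K : ℝ) else if r = 1 then -(Fintype.card K * P.ψ X) else 0 := by
    intro r
    rw [sum_congr rfl fun u _ => h2 u r, ← mul_sum, P.orth]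
    by_cases h0 : r = 0
    · subst h0
      simp [P.zero]
    · rw [if_neg h0]
      by_cases h4 : r = 1
      · subst h4
        have e2 : (1 : K) + 1 ^ 4 = 0 := by rw [one_pow, one_add_one_eq_two, P.two]
        rw [if_pos e2, if_pos rfl]
        have e3 : P.ψ (1 ^ 6 + X * 1 ^ 2) = - P.ψ X := by
          rw [one_pow, one_pow, mul_one, P.add, P.one]
          ring
        rw [e3]
        ring
      · rw [if_neg h4, if_neg, mul_zero]
        intro h5
        apply h4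
        apply P.cube
        have h6 : r * (r ^ 3 - 1) = 0 := by linear_combination h5 - r * P.two
        rcases mul_eq_zero.1 h6 with h7 | h7
        · exact absurd h7 h0
        · rw [one_pow]
          exact sub_eq_zero.1 h7
  rw [sum_congr rfl fun r _ => h3 r]
  have h4 : ∀ r : K, (if r = 0 then (Fintype.card K : ℝ) else
      if r = 1 then -(Fintype.card K * P.ψ X) else 0) =
      (if r = 0 then (Fintype.card K : ℝ) else 0) +
      (if r = 1 then -(Fintype.card K * P.ψ X) else 0) := by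
    intro r
    by_cases h0 : r = 0
    · subst h0
      simp
    · simp [h0]
  rw [sum_congr rfl fun r _ => h4 r, sum_add_distrib, sum_ite_eq', sum_ite_eq']
  simp
  ring

theorem F_abs (X : K) : |P.F X| ≤ Real.sqrt (2 * Fintype.card K) := by
  rw [← Real.sqrt_sq_eq_abs, P.F_sq]
  apply Real.sqrt_le_sqrt
  rcases P.pm X with h | h
  · rw [h]
    have : (0 : ℝ) ≤ Fintype.card K := by positivity
    linarith
  · rw [h]
    linarith

/-- Fourier transform of `Y ↦ F (X Y)` -/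
theorem ft_F (s X : K) : ∑ Y, P.ψ (s * Y) * P.F (X * Y) =
    if X = 0 then 0 else Fintype.card K * P.ψ ((s / X) ^ 3) := by
  split_ifs with h
  · subst h
    simp [P.F_zero]
  · unfold F
    have h1 : ∑ Y, P.ψ (s * Y) * ∑ u, P.ψ (u ^ 3 + X * Y * u) =
        ∑ u, P.ψ (u ^ 3) * ∑ Y, P.ψ ((s + X * u) * Y) := by
      simp_rw [mul_sum]
      rw [sum_comm]
      refine sum_congr rfl fun u _ => sum_congr rfl fun Y _ => ?_
      rw [← P.add, ← P.add]
      congr 1
      ring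
    rw [h1]
    simp_rw [P.orth]
    have h2 : ∀ u : K, s + X * u = 0 ↔ u = s / X := by
      intro u
      rw [eq_div_iff h]
      constructor
      · intro h3
        linear_combination -h3 + X * u * P.two
      · intro h3
        linear_combination h3 + s * P.two - 0 * h3
    simp_rw [h2]
    simp [mul_comm]

/-- orthogonality of the rows of `F (X Y)` -/
theorem F_orth (Y Y' : K) (hY' : Y' ≠ 0) :
    ∑ X, P.F (X * Y) * P.F (X * Y') = if Y = Y' then (Fintype.card K : ℝ) ^ 2 else 0 := by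
  have h1 : ∑ X, P.F (X * Y) * P.F (X * Y') =
      ∑ u, ∑ v, P.ψ (u ^ 3 + v ^ 3) * ∑ X, P.ψ ((Y * u + Y' * v) * X) := by
    unfold F
    simp_rw [sum_mul_sum, mul_sum]
    rw [sum_comm]
    refine sum_congr rfl fun u _ => ?_
    rw [sum_comm]
    refine sum_congr rfl fun v _ => sum_congr rfl fun X _ => ?_
    rw [← P.add, ← P.add]
    congr 1
    ring
  rw [h1]
  simp_rw [P.orth]
  have h2 : ∀ u v : K, Y * u + Y' * v = 0 ↔ v = Y / Y' * u := by
    intro u v
    rw [div_mul_eq_mul_div, eq_div_iff hY']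
    constructor
    · intro h3
      linear_combination -h3 + Y' * v * P.two
    · intro h3
      linear_combination h3 + Y * u * P.two
  simp_rw [h2]
  simp only [mul_ite, mul_zero, sum_ite_eq', mem_univ, if_true]
  have h3 : ∀ u : K, P.ψ (u ^ 3 + (Y / Y' * u) ^ 3) * (Fintype.card K : ℝ) =
      (Fintype.card K : ℝ) * P.ψ ((1 + (Y / Y') ^ 3) * u ^ 3) := by
    intro u
    rw [mul_comm]
    congr 2
    ring
  rw [sum_congr rfl fun u _ => h3 u, ← mul_sum,
    P.sum_cube fun x => P.ψ ((1 + (Y / Y') ^ 3) * x), P.orth]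
  have h4 : 1 + (Y / Y') ^ 3 = 0 ↔ Y = Y' := by
    constructor
    · intro h5
      have h6 : (Y / Y') ^ 3 = 1 ^ 3 := by rw [one_pow]; linear_combination h5 - P.two
      have h7 := P.cube _ _ h6
      exact (div_eq_one_iff_eq hY').1 h7
    · intro h5
      rw [h5, div_self hY', one_pow, one_add_one_eq_two, P.two]
  simp_rw [h4]
  split_ifs
  · ring
  · ring

/-- Kloosterman sums -/
noncomputable def Kl (a b : K) : ℝ := ∑ x, if x = 0 then 0 else P.ψ (a * x + b * x⁻¹)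

theorem Kl_scale (a b : K) (ha : a ≠ 0) : P.Kl a b = P.Kl 1 (a * b) := by
  unfold Kl
  rw [← Equiv.sum_comp (Equiv.mulLeft₀ a ha) fun x => if x = 0 then 0 else
    P.ψ (1 * x + a * b * x⁻¹)]
  refine sum_congr rfl fun x _ => ?_
  rw [Equiv.mulLeft₀_apply]
  by_cases h : x = 0
  · simp [h]
  · rw [if_neg h, if_neg (mul_ne_zero ha h)]
    congr 1
    field_simp

theorem sum_ne_zero (f : K → ℝ) : (∑ x, if x = 0 then 0 else f x) = ∑ x, f x - f 0 := by
  have h : ∀ x : K, (if x = 0 then 0 else f x) = f x - if x = 0 then f 0 else 0 := by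
    intro x
    split_ifs with h
    · rw [h]; ring
    · ring
  rw [sum_congr rfl fun x _ => h x, sum_sub_distrib]
  simp

theorem Kl_one_zero : P.Kl 1 0 = -1 := by
  unfold Kl
  have h : ∀ x : K, (if x = 0 then 0 else P.ψ (1 * x + 0 * x⁻¹)) =
      if x = 0 then 0 else P.ψ (1 * x) := by
    intro x
    rw [zero_mul, add_zero]
  rw [sum_congr rfl fun x _ => h x, sum_ne_zero, P.orth, if_neg one_ne_zero, mul_zero, P.zero]
  ring

theorem Kl_zero (b : K) : P.Kl 0 b = if b = 0 then (Fintype.card K : ℝ) - 1 else -1 := by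
  unfold Kl
  have h1 : (∑ x : K, if x = 0 then 0 else P.ψ (0 * x + b * x⁻¹)) =
      ∑ x : K, if x = 0 then 0 else P.ψ (b * x) := by
    rw [← Equiv.sum_comp (Equiv.inv K) fun x => if x = 0 then 0 else P.ψ (b * x)]
    refine sum_congr rfl fun x _ => ?_
    rw [Equiv.inv_apply, zero_mul, zero_add]
    simp only [inv_eq_zero]
  rw [h1, sum_ne_zero, P.orth, mul_zero, P.zero]
  split_ifs <;> ring

/-- Fourier transform of the left side -/
theorem ft_left (s s' : K) : ∑ Y, ∑ Y', P.ψ (s * Y + s' * Y') *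
    ∑ X, P.ψ (X ^ 3) * (P.F (X * Y) * P.F (X * Y')) =
    (Fintype.card K : ℝ) ^ 2 * P.Kl 1 (s ^ 3 + s' ^ 3) := by
  have h1 : ∑ Y, ∑ Y', P.ψ (s * Y + s' * Y') *
      ∑ X, P.ψ (X ^ 3) * (P.F (X * Y) * P.F (X * Y')) =
      ∑ X, P.ψ (X ^ 3) * ((∑ Y, P.ψ (s * Y) * P.F (X * Y)) *
        ∑ Y', P.ψ (s' * Y') * P.F (X * Y')) := by
    simp_rw [sum_mul_sum, mul_sum]
    rw [sum_congr rfl fun Y _ => sum_comm, sum_comm]
    refine sum_congr rfl fun X _ => sum_congr rfl fun Y _ => sum_congr rfl fun Y' _ => ?_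
    rw [P.add]
    ring
  rw [h1]
  unfold Kl
  rw [← P.sum_cube fun x => if x = 0 then 0 else P.ψ (1 * x + (s ^ 3 + s' ^ 3) * x⁻¹), mul_sum]
  refine sum_congr rfl fun X _ => ?_
  rw [P.ft_F, P.ft_F]
  by_cases h : X = 0
  · simp [h]
  · rw [if_neg h, if_neg h, if_neg (pow_ne_zero 3 h)]
    have e1 : 1 * X ^ 3 + (s ^ 3 + s' ^ 3) * (X ^ 3)⁻¹ = X ^ 3 + ((s / X) ^ 3 + (s' / X) ^ 3) := by
      field_simp
    rw [e1, P.add, P.add]
    ring

/-- the inner sum of the cubic norm form -/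
theorem inner_J (s s' z : K) (hz : z ≠ 0) :
    ∑ r, ∑ p, P.ψ (z ^ 2 * (p ^ 2 + p * r + r ^ 2) + s * (z ^ 2 + r) + s' * (z ^ 2 + p)) =
      -(Fintype.card K * P.ψ ((s + s') * z ^ 2 + (s ^ 2 + s * s' + s' ^ 2) * (z ^ 2)⁻¹)) := by
  have hz2 : z ^ 2 ≠ 0 := pow_ne_zero 2 hz
  have h1 : ∀ r : K, ∑ p, P.ψ (z ^ 2 * (p ^ 2 + p * r + r ^ 2) + s * (z ^ 2 + r) +
      s' * (z ^ 2 + p)) = P.ψ (z ^ 2 * r ^ 2 + s * r + (s + s') * z ^ 2) *
      if r = (z + s') / z ^ 2 then (Fintype.card K : ℝ) else 0 := by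
    intro r
    have e1 : (if r = (z + s') / z ^ 2 then (Fintype.card K : ℝ) else 0) =
        if z + (z ^ 2 * r + s') = 0 then (Fintype.card K : ℝ) else 0 := by
      have e2 : r = (z + s') / z ^ 2 ↔ z + (z ^ 2 * r + s') = 0 := by
        rw [eq_div_iff hz2]
        constructor
        · intro h
          linear_combination h + (z + s') * P.two
        · intro h
          linear_combination h - (z + s') * P.two
      simp_rw [e2]
    rw [e1, ← P.gauss, mul_sum]
    refine sum_congr rfl fun p _ => ?_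
    rw [← P.add]
    congr 1
    ring
  rw [sum_congr rfl fun r _ => h1 r]
  simp only [mul_ite, mul_zero, sum_ite_eq', mem_univ, if_true]
  have e3 : z ^ 2 * ((z + s') / z ^ 2) ^ 2 + s * ((z + s') / z ^ 2) + (s + s') * z ^ 2 =
      (1 + s / z) + ((s' ^ 2 + s * s') * (z ^ 2)⁻¹ + (s + s') * z ^ 2) + 2 * (s' / z) := by
    field_simp
    ring
  have e4 : (1 + s / z) + ((s' ^ 2 + s * s') * (z ^ 2)⁻¹ + (s + s') * z ^ 2) + 2 * (s' / z) =
      (1 + s / z) + ((s' ^ 2 + s * s') * (z ^ 2)⁻¹ + (s + s') * z ^ 2) := by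
    rw [P.two, zero_mul, add_zero]
  rw [e3, e4, P.add, P.add 1, P.one, ← P.sq (s / z)]
  have e5 : (s + s') * z ^ 2 + (s ^ 2 + s * s' + s' ^ 2) * (z ^ 2)⁻¹ =
      (s / z) ^ 2 + ((s' ^ 2 + s * s') * (z ^ 2)⁻¹ + (s + s') * z ^ 2) := by
    field_simp
    ring
  rw [e5, P.add ((s / z) ^ 2)]
  ring

/-- Fourier transform of the right side -/
theorem ft_right (s s' : K) : ∑ Y, ∑ Y', P.ψ (s * Y + s' * Y') *
    (P.ψ (Y ^ 3 + Y' ^ 3) * P.F (Y * Y')) =
    (if s = 0 then (Fintype.card K : ℝ) else 0) * (if s' = 0 then (Fintype.card K : ℝ) else 0) -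
      Fintype.card K * P.Kl (s + s') (s ^ 2 + s * s' + s' ^ 2) := by
  have h1 : ∀ Y Y' : K, P.ψ (s * Y + s' * Y') * (P.ψ (Y ^ 3 + Y' ^ 3) * P.F (Y * Y')) =
      ∑ x, P.ψ (x * ((Y' + x) ^ 2 + (Y' + x) * (Y + x) + (Y + x) ^ 2) + s * Y + s' * Y') := by
    intro Y Y'
    unfold F
    rw [mul_sum, mul_sum, ← Equiv.sum_comp (Equiv.addRight (Y + Y'))]
    refine sum_congr rfl fun x _ => ?_
    rw [Equiv.coe_addRight, ← P.add, ← P.add]
    congr 1
    linear_combination (Y ^ 3 + Y' ^ 3 + 2 * Y ^ 2 * Y' + 2 * Y * Y' ^ 2 + x * Y ^ 2 +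
      x * Y' ^ 2 + 3 * x * Y * Y' - x ^ 3) * P.two
  simp_rw [h1]
  have h2 : ∑ Y, ∑ Y', ∑ x, P.ψ (x * ((Y' + x) ^ 2 + (Y' + x) * (Y + x) + (Y + x) ^ 2) +
      s * Y + s' * Y') = ∑ x, ∑ r, ∑ p, P.ψ (x * (p ^ 2 + p * r + r ^ 2) + s * (x + r) +
      s' * (x + p)) := by
    rw [sum_congr rfl fun Y _ => sum_comm, sum_comm]
    refine sum_congr rfl fun x _ => ?_
    rw [← Equiv.sum_comp (Equiv.addRight x)]
    refine sum_congr rfl fun r _ => ?_
    rw [← Equiv.sum_comp (Equiv.addRight x)]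
    refine sum_congr rfl fun p _ => ?_
    simp only [Equiv.coe_addRight]
    congr 1
    linear_combination (x * (r * x + r * p + p * x + x * x) + x * (p * x + r * x + x * x) - r * p * x + x ^ 2 * p + x ^ 2 * r + 4 * x ^ 3) * P.two
  rw [h2, ← P.sum_sq fun x => ∑ r, ∑ p, P.ψ (x * (p ^ 2 + p * r + r ^ 2) + s * (x + r) +
      s' * (x + p))]
  have h3 : ∀ z : K, ∑ r, ∑ p, P.ψ (z ^ 2 * (p ^ 2 + p * r + r ^ 2) + s * (z ^ 2 + r) +
      s' * (z ^ 2 + p)) = (if z = 0 then (if s = 0 then (Fintype.card K : ℝ) else 0) *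
        (if s' = 0 then (Fintype.card K : ℝ) else 0) else 0) -
      Fintype.card K * (if z ^ 2 = 0 then 0 else P.ψ ((s + s') * z ^ 2 +
        (s ^ 2 + s * s' + s' ^ 2) * (z ^ 2)⁻¹)) := by
    intro z
    by_cases hz : z = 0
    · subst hz
      have e0 : (0 : K) ^ 2 = 0 := by simp
      rw [if_pos (rfl : (0 : K) = 0), if_pos e0, mul_zero, sub_zero, ← P.orth, ← P.orth,
        sum_mul_sum]
      refine sum_congr rfl fun r _ => sum_congr rfl fun p _ => ?_
      rw [← P.add]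
      congr 1
      ring
    · rw [if_neg hz, if_neg (pow_ne_zero 2 hz), P.inner_J s s' z hz]
      ring
  rw [sum_congr rfl fun z _ => h3 z, sum_sub_distrib, ← mul_sum,
    P.sum_sq fun x => if x = 0 then 0 else P.ψ ((s + s') * x + (s ^ 2 + s * s' + s' ^ 2) * x⁻¹)]
  simp only [sum_ite_eq', mem_univ, if_true]
  rfl

theorem ft_total (s s' : K) : (Fintype.card K : ℝ) ^ 2 * P.Kl 1 (s ^ 3 + s' ^ 3) +
    Fintype.card K * ((if s = 0 then (Fintype.card K : ℝ) else 0) *
      (if s' = 0 then (Fintype.card K : ℝ) else 0) -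
      Fintype.card K * P.Kl (s + s') (s ^ 2 + s * s' + s' ^ 2)) = 0 := by
  by_cases h : s + s' = 0
  · have h1 : s' = s := by linear_combination h - s * P.two
    subst h1
    have e1 : s' ^ 3 + s' ^ 3 = 0 := by linear_combination s' ^ 3 * P.two
    have e2 : s' ^ 2 + s' * s' + s' ^ 2 = s' ^ 2 := by linear_combination s' ^ 2 * P.two
    rw [e1, e2, h, P.Kl_one_zero, P.Kl_zero]
    by_cases h0 : s' = 0
    · subst h0
      simp
      ring
    · rw [if_neg h0, if_neg (pow_ne_zero 2 h0)]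
      ring
  · rw [P.Kl_scale _ _ h]
    have e1 : (s + s') * (s ^ 2 + s * s' + s' ^ 2) = s ^ 3 + s' ^ 3 := by
      linear_combination (s ^ 2 * s' + s * s' ^ 2) * P.two
    rw [e1]
    have e2 : (if s = 0 then (Fintype.card K : ℝ) else 0) *
        (if s' = 0 then (Fintype.card K : ℝ) else 0) = 0 := by
      by_cases h0 : s = 0
      · have h2 : s' ≠ 0 := fun h3 => h (by rw [h0, h3, add_zero])
        rw [if_neg h2, mul_zero]
      · rw [if_neg h0, zero_mul]
    rw [e2]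
    ring

/-- Fourier inversion -/
theorem ft_inv (H : K → K → ℝ) (h : ∀ s s', ∑ Y, ∑ Y', P.ψ (s * Y + s' * Y') * H Y Y' = 0)
    (A B : K) : H A B = 0 := by
  have h1 : ∑ s, ∑ s', P.ψ (s * A + s' * B) * ∑ Y, ∑ Y', P.ψ (s * Y + s' * Y') * H Y Y' = 0 := by
    simp [h]
  have h2 : ∑ s, ∑ s', P.ψ (s * A + s' * B) * ∑ Y, ∑ Y', P.ψ (s * Y + s' * Y') * H Y Y' =
      ∑ Y, ∑ Y', ((∑ s, P.ψ ((A + Y) * s)) * ∑ s', P.ψ ((B + Y') * s')) * H Y Y' := by
    simp_rw [sum_mul_sum, mul_sum, sum_mul]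
    have e1 : ∀ s : K, ∑ s', ∑ Y, ∑ Y', P.ψ (s * A + s' * B) * (P.ψ (s * Y + s' * Y') * H Y Y') =
        ∑ Y, ∑ Y', ∑ s', P.ψ (s * A + s' * B) * (P.ψ (s * Y + s' * Y') * H Y Y') := by
      intro s
      rw [sum_comm]
      exact sum_congr rfl fun Y _ => sum_comm
    rw [sum_congr rfl fun s _ => e1 s, sum_comm]
    refine sum_congr rfl fun Y _ => ?_
    rw [sum_comm]
    refine sum_congr rfl fun Y' _ => sum_congr rfl fun s _ => sum_congr rfl fun s' _ => ?_
    rw [← P.add, ← mul_assoc, ← P.add]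
    congr 2
    ring
  rw [h2] at h1
  simp_rw [P.orth] at h1
  have e3 : ∀ Y Z : K, Z + Y = 0 ↔ Y = Z := by
    intro Y Z
    constructor
    · intro h4
      linear_combination h4 - Z * P.two
    · intro h4
      rw [h4]
      linear_combination Z * P.two
  simp_rw [e3] at h1
  simp only [ite_mul, mul_ite, mul_zero, zero_mul, sum_ite_eq', mem_univ, if_true] at h1
  have hq : (Fintype.card K : ℝ) ≠ 0 := by
    exact_mod_cast Fintype.card_ne_zero
  rcases mul_eq_zero.1 h1 with h5 | h5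
  · exact absurd h5 (mul_ne_zero hq hq)
  · exact h5

/-- **the main identity** -/
theorem main_id (Y Y' : K) : ∑ X, P.ψ (X ^ 3) * (P.F (X * Y) * P.F (X * Y')) =
    -(Fintype.card K * (P.ψ (Y ^ 3 + Y' ^ 3) * P.F (Y * Y'))) := by
  have h := P.ft_inv (fun Y Y' => ∑ X, P.ψ (X ^ 3) * (P.F (X * Y) * P.F (X * Y')) +
    Fintype.card K * (P.ψ (Y ^ 3 + Y' ^ 3) * P.F (Y * Y'))) ?_ Y Y'
  · linarith
  · intro s s'
    have h1 : ∑ Y, ∑ Y', P.ψ (s * Y + s' * Y') *
        (∑ X, P.ψ (X ^ 3) * (P.F (X * Y) * P.F (X * Y')) +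
          Fintype.card K * (P.ψ (Y ^ 3 + Y' ^ 3) * P.F (Y * Y'))) =
        ∑ Y, ∑ Y', P.ψ (s * Y + s' * Y') *
          ∑ X, P.ψ (X ^ 3) * (P.F (X * Y) * P.F (X * Y')) +
        Fintype.card K * ∑ Y, ∑ Y', P.ψ (s * Y + s' * Y') *
          (P.ψ (Y ^ 3 + Y' ^ 3) * P.F (Y * Y')) := by
      rw [mul_sum, ← sum_add_distrib]
      refine sum_congr rfl fun Y _ => ?_
      rw [mul_sum, ← sum_add_distrib]
      refine sum_congr rfl fun Y' _ => ?_
      ring
    rw [h1, P.ft_left, P.ft_right]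
    exact P.ft_total s s'

end Ch

end Pool.Agent.H68.TF
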